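import Mathlib
import Pool.Agent.Y918.RP.Add
import Pool.Agent.Y918.EL.Cube2

set_option autoImplicit false

/-!
# Random vectors in several dimensions are in general position
-/

namespace Pool.Agent.X231.EP

open Module Finset
open Pool.Agent.H301R2.SSE (QB mem_QB)
open Pool.Agent.Y918.RP (dep_countF)

/-- The projection. -/
noncomputable def dot {n : ℕ} (γ v : Fin n → ℂ) : ℂ := ∑ b, γ b * v b

theorem dot_sub {n : ℕ} (γ v w : Fin n → ℂ) : dot γ (v - w) = dot γ v - dot γ w := by
  unfold dot
  rw [← Finset.sum_sub_distrib]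
  refine Finset.sum_congr rfl fun b _ => ?_
  rw [Pi.sub_apply, mul_sub]

theorem dot_add_left {n : ℕ} (γ γ' v : Fin n → ℂ) : dot (γ + γ') v = dot γ v + dot γ' v := by
  unfold dot
  rw [← Finset.sum_add_distrib]
  refine Finset.sum_congr rfl fun b _ => ?_
  rw [Pi.add_apply, add_mul]

theorem dot_smul_left {n : ℕ} (s : ℂ) (γ v : Fin n → ℂ) : dot (s • γ) v = s * dot γ v := by
  unfold dot
  rw [Finset.mul_sum]
  refine Finset.sum_congr rfl fun b _ => ?_
  rw [Pi.smul_apply, smul_eq_mul, mul_assoc]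

theorem dot_zero_left {n : ℕ} (v : Fin n → ℂ) : dot 0 v = 0 := by
  unfold dot
  simp

/-- The rank of the projections of vectors. -/
noncomputable def rk {n : ℕ} {I : Type} (γ : Fin n → ℂ) (d : I → Fin n → ℂ) : ℕ :=
  finrank QB (Submodule.span QB (Set.range fun i => dot γ (d i)))

theorem rk_mono {n : ℕ} {I J : Type} [Finite J] (γ : Fin n → ℂ) (d : J → Fin n → ℂ) (f : I → J) :
    rk γ (fun i => d (f i)) ≤ rk γ d := by
  unfold rk
  have hfin : Module.Finite QB (Submodule.span QB (Set.range fun i => dot γ (d i))) :=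
    FiniteDimensional.span_of_finite QB (Set.finite_range _)
  apply Submodule.finrank_mono
  apply Submodule.span_mono
  rintro _ ⟨i, rfl⟩
  exact ⟨f i, rfl⟩

/-- The combinations of the projections. -/
noncomputable def Tm {n : ℕ} {I : Type} [Fintype I] (d : I → Fin n → ℂ) (γ : Fin n → ℂ) :
    (I → QB) →ₗ[QB] ℂ := Fintype.linearCombination QB (fun i => dot γ (d i))

theorem Tm_apply {n : ℕ} {I : Type} [Fintype I] (d : I → Fin n → ℂ) (γ : Fin n → ℂ) (c : I → QB) :
    Tm d γ c = ∑ i, (c i : ℂ) * dot γ (d i) := by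
  unfold Tm
  rw [Fintype.linearCombination_apply]
  rfl

theorem Tm_range {n : ℕ} {I : Type} [Fintype I] (d : I → Fin n → ℂ) (γ : Fin n → ℂ) :
    finrank QB (LinearMap.range (Tm d γ)) = rk γ d := by
  unfold Tm rk
  rw [Fintype.range_linearCombination]

/-- The space generated by the exceptional projections. -/
noncomputable def Hx {n : ℕ} {I : Type} (H : Submodule ℂ (Fin n → ℂ)) (K : ℕ) (d : I → Fin n → ℂ) :
    Submodule ℂ (Fin n → ℂ) := Submodule.span ℂ {γ | γ ∈ H ∧ rk γ d < K}

theorem Hx_le {n : ℕ} {I : Type} (H : Submodule ℂ (Fin n → ℂ)) (K : ℕ) (d : I → Fin n → ℂ) :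
    Hx H K d ≤ H := Submodule.span_le.2 fun _ h => h.1

theorem Hx_finrank {n r K : ℕ} (hK : 0 < K) (H : Submodule ℂ (Fin n → ℂ))
    (hH : finrank ℂ H ≤ r + 1) (d : Fin ((r + 1) * K) → Fin n → ℂ) {γ₀ : Fin n → ℂ} (h₀ : γ₀ ∈ H)
    (hd : LinearIndependent QB (fun i => dot γ₀ (d i))) : finrank ℂ (Hx H K d) ≤ r := by
  classical
  have hne : γ₀ ∉ Hx H K d := by
    intro hmem
    obtain ⟨b, hbΓ, hspan, hli⟩ := exists_linearIndependent ℂ {γ | γ ∈ H ∧ rk γ d < K}
    have hbf : b.Finite := hli.setFinite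
    have : Fintype b := hbf.fintype
    have hcard : Fintype.card b ≤ r + 1 := by
      have h1 := finrank_span_set_eq_card hli
      rw [hspan] at h1
      have h2 : finrank ℂ (Submodule.span ℂ {γ | γ ∈ H ∧ rk γ d < K}) ≤ finrank ℂ H :=
        Submodule.finrank_mono (Hx_le H K d)
      rw [h1, Set.toFinset_card] at h2
      omega
    let Φ : (Fin ((r + 1) * K) → QB) →ₗ[QB] (∀ γ : b, LinearMap.range (Tm d γ.1)) :=
      LinearMap.pi (fun γ => (Tm d γ.1).rangeRestrict)
    have hnot : ¬ Function.Injective Φ := by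
      intro hinj
      have h1 := LinearMap.finrank_le_finrank_of_injective hinj
      rw [Module.finrank_fintype_fun_eq_card, Fintype.card_fin, Module.finrank_pi_fintype] at h1
      have h2 : ∑ γ : b, finrank QB (LinearMap.range (Tm d γ.1)) ≤ ∑ _γ : b, (K - 1) := by
        refine Finset.sum_le_sum fun γ _ => ?_
        rw [Tm_range]
        have := (hbΓ γ.2).2
        omega
      rw [Finset.sum_const, Finset.card_univ, smul_eq_mul] at h2
      have h3 : Fintype.card b * (K - 1) ≤ (r + 1) * (K - 1) := Nat.mul_le_mul_right _ hcard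
      have h4 : (r + 1) * (K - 1) < (r + 1) * K := Nat.mul_lt_mul_of_pos_left (by omega) (by omega)
      omega
    rw [injective_iff_map_eq_zero] at hnot
    push Not at hnot
    obtain ⟨c, hc, hc0⟩ := hnot
    have hb : ∀ γ ∈ b, Tm d γ c = 0 := by
      intro γ hγ
      have h1 := congrFun hc ⟨γ, hγ⟩
      exact congrArg (fun z : LinearMap.range (Tm d γ) => (z : ℂ)) h1
    have hall : ∀ γ ∈ Hx H K d, Tm d γ c = 0 := by
      intro γ hγ
      unfold Hx at hγ
      rw [← hspan] at hγ
      induction hγ using Submodule.span_induction with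
      | mem x hx => exact hb x hx
      | zero =>
        rw [Tm_apply]
        simp [dot_zero_left]
      | add x y _ _ h1 h2 =>
        rw [Tm_apply] at h1 h2 ⊢
        simp only [dot_add_left, mul_add, Finset.sum_add_distrib, h1, h2, add_zero]
      | smul s x _ h1 =>
        rw [Tm_apply] at h1 ⊢
        have h2 : ∑ i, (c i : ℂ) * dot (s • x) (d i) = s * ∑ i, (c i : ℂ) * dot x (d i) := by
          rw [Finset.mul_sum]
          refine Finset.sum_congr rfl fun i _ => ?_
          rw [dot_smul_left]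
          ring
        rw [h2, h1, mul_zero]
    apply hc0
    funext i
    refine Fintype.linearIndependent_iff.1 hd c ?_ i
    have h5 := hall γ₀ hmem
    rw [Tm_apply] at h5
    exact h5
  have hlt : Hx H K d < H := lt_of_le_of_ne (Hx_le H K d) (fun h => hne (by rw [h]; exact h₀))
  have := Submodule.finrank_lt_finrank_of_lt hlt
  omega

open Classical in
theorem split_count {X : Type} (A : Finset X) (m n : ℕ) (P : (Fin (m + n) → X) → Prop)
    (B : (Fin m → X) → Prop) (α β : ℝ) (hβ : 0 ≤ β)
    (h1 : (((Fintype.piFinset fun _ : Fin m => A).filter B).card : ℝ) ≤ α * (A.card : ℝ) ^ m)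
    (h2 : ∀ x ∈ Fintype.piFinset (fun _ : Fin m => A), ¬ B x →
      (((Fintype.piFinset fun _ : Fin n => A).filter (fun z => P (Fin.append x z))).card : ℝ) ≤
        β * (A.card : ℝ) ^ n) :
    (((Fintype.piFinset fun _ : Fin (m + n) => A).filter P).card : ℝ) ≤
      (α + β) * (A.card : ℝ) ^ (m + n) := by
  obtain ⟨a, ha⟩ : ∃ a : ℝ, a = (A.card : ℝ) := ⟨_, rfl⟩
  have ha0 : 0 ≤ a := by rw [ha]; exact Nat.cast_nonneg _
  rw [← ha] at h1 h2 ⊢
  set Φ := (Fintype.piFinset fun _ : Fin (m + n) => A).filter P with hΦ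
  set Y : Finset (Fin m → X) := Fintype.piFinset fun _ : Fin m => A with hY
  have hYc : (Y.card : ℝ) = a ^ m := by
    rw [hY, Fintype.card_piFinset_const, ha]
    push_cast
    rfl
  have hfib : Φ.card = ∑ t ∈ Y, (Φ.filter (fun v => (fun i => v (Fin.castAdd n i)) = t)).card := by
    apply Finset.card_eq_sum_card_fiberwise
    intro v hv
    rw [Finset.mem_coe, hΦ, Finset.mem_filter, Fintype.mem_piFinset] at hv
    rw [Finset.mem_coe, hY, Fintype.mem_piFinset]
    exact fun i => hv.1 _
  have happ : ∀ (t : Fin m → X) (v : Fin (m + n) → X), (fun i => v (Fin.castAdd n i)) = t →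
      v = Fin.append t (fun j => v (Fin.natAdd m j)) := by
    intro t v hv
    rw [← hv]
    exact (Fin.append_castAdd_natAdd).symm
  have hinj : ∀ t, Set.InjOn (fun v : Fin (m + n) → X => fun j => v (Fin.natAdd m j))
      (Φ.filter (fun v => (fun i => v (Fin.castAdd n i)) = t) : Finset (Fin (m + n) → X)) := by
    intro t v hv v' hv' hvv
    rw [Finset.mem_coe, Finset.mem_filter] at hv hv'
    rw [happ t v hv.2, happ t v' hv'.2]
    exact congrArg _ hvv
  have hall : ∀ t ∈ Y, ((Φ.filter (fun v => (fun i => v (Fin.castAdd n i)) = t)).card : ℝ) ≤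
      (if B t then a ^ n else 0) + β * a ^ n := by
    intro t ht
    have h3 : 0 ≤ β * a ^ n := mul_nonneg hβ (pow_nonneg ha0 n)
    by_cases h0 : B t
    · rw [if_pos h0]
      have h4 : (Φ.filter (fun v => (fun i => v (Fin.castAdd n i)) = t)).card ≤
          (Fintype.piFinset fun _ : Fin n => A).card := by
        refine Finset.card_le_card_of_injOn _ ?_ (hinj t)
        intro v hv
        rw [Finset.mem_coe, Finset.mem_filter, hΦ, Finset.mem_filter, Fintype.mem_piFinset] at hv
        rw [Finset.mem_coe, Fintype.mem_piFinset]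
        exact fun j => hv.1.1 _
      have h5 : ((Φ.filter (fun v => (fun i => v (Fin.castAdd n i)) = t)).card : ℝ) ≤ a ^ n := by
        refine (Nat.cast_le.2 h4).trans (le_of_eq ?_)
        rw [Fintype.card_piFinset_const, ha]
        push_cast
        rfl
      linarith
    · rw [if_neg h0, zero_add]
      refine le_trans (Nat.cast_le.2 ?_) (h2 t ht h0)
      refine Finset.card_le_card_of_injOn _ ?_ (hinj t)
      intro v hv
      rw [Finset.mem_coe, Finset.mem_filter, hΦ, Finset.mem_filter, Fintype.mem_piFinset] at hv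
      rw [Finset.mem_coe, Finset.mem_filter, Fintype.mem_piFinset]
      refine ⟨fun j => hv.1.1 _, ?_⟩
      rw [← happ t v hv.2]
      exact hv.1.2
  rw [hfib]
  push_cast
  refine (Finset.sum_le_sum hall).trans ?_
  rw [Finset.sum_add_distrib, ← Finset.sum_filter, Finset.sum_const, Finset.sum_const,
    nsmul_eq_mul, nsmul_eq_mul, hYc]
  have h4 : ((Y.filter B).card : ℝ) * a ^ n ≤ (α * a ^ m) * a ^ n :=
    mul_le_mul_of_nonneg_right h1 (pow_nonneg ha0 n)
  calc _ ≤ (α * a ^ m) * a ^ n + a ^ m * (β * a ^ n) := by linarith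
    _ = (α + β) * a ^ (m + n) := by rw [pow_add]; ring

open Classical in
/-- **Random vectors are in general position.** -/
theorem genpos (n K : ℕ) (hK : 0 < K) : ∀ r : ℕ, ∃ R C : ℕ, 0 < R ∧
    ∀ (X : Type) (A : Finset X) (val : X → Fin n → ℂ) (ρ : ℝ), 0 ≤ ρ →
    ∀ H : Submodule ℂ (Fin n → ℂ), finrank ℂ H ≤ r →
    (∀ γ ∈ H, γ ≠ 0 → ∀ V : Submodule QB ℂ, Module.Finite QB V → finrank QB V < R → ∀ y : ℂ,
      ((A.filter (fun u => dot γ (val u) - y ∈ V)).card : ℝ) ≤ ρ * A.card) →
    ∀ y : Fin n → ℂ, (((Fintype.piFinset fun _ : Fin R => A).filter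
      (fun x => ¬ ∀ γ ∈ H, γ ≠ 0 → K ≤ rk γ (fun i => val (x i) - y))).card : ℝ) ≤
      C * ρ * (A.card : ℝ) ^ R := by
  intro r
  induction r with
  | zero =>
    refine ⟨1, 0, one_pos, fun X A val ρ hρ H hH h y => ?_⟩
    rw [Finset.filter_false_of_mem]
    · simp
    · intro x _ hx
      apply hx
      intro γ hγ hγ0
      exfalso
      have h1 : H = ⊥ := by
        rw [← Submodule.finrank_eq_zero (R := ℂ)]
        omega
      rw [h1, Submodule.mem_bot] at hγ
      exact hγ0 hγ
  | succ r ih =>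
    obtain ⟨R', C', hR', hgen⟩ := ih
    refine ⟨(r + 1) * K + R', (r + 1) * K + C', by positivity, fun X A val ρ hρ H hH h y => ?_⟩
    by_cases hbot : ∃ γ ∈ H, γ ≠ 0
    swap
    · rw [Finset.filter_false_of_mem]
      · simp only [Finset.card_empty, Nat.cast_zero]
        positivity
      · intro x _ hx
        apply hx
        intro γ hγ hγ0
        exact absurd ⟨γ, hγ, hγ0⟩ hbot
    obtain ⟨γ₀, hγ₀, hγ₀0⟩ := hbot
    obtain ⟨R1, hR1⟩ : ∃ R1, R1 = (r + 1) * K := ⟨_, rfl⟩
    have h1 := dep_countF (F := QB) A (fun u => dot γ₀ (val u - y)) ((r + 1) * K) ρ hρ (by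
      intro V hV hVK
      have h2 := h γ₀ hγ₀ hγ₀0 V hV (by omega) (dot γ₀ y)
      simp only [dot_sub]
      exact h2) ((r + 1) * K) le_rfl
    have h3 := split_count A ((r + 1) * K) R'
      (fun x => ¬ ∀ γ ∈ H, γ ≠ 0 → K ≤ rk γ (fun i => val (x i) - y))
      (fun x => ¬ LinearIndependent QB (fun i => dot γ₀ (val (x i) - y)))
      (((r + 1) * K : ℕ) * ρ) (C' * ρ) (by positivity) (by convert h1) (by
        intro x _ hx
        rw [not_not] at hx
        have h4 := Hx_finrank hK H hH (fun i => val (x i) - y) hγ₀ hx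
        have h5 := hgen X A val ρ hρ (Hx H K (fun i => val (x i) - y)) h4 (by
          intro γ hγ hγ0 V hV hVK
          exact h γ (Hx_le _ _ _ hγ) hγ0 V hV (by omega)) y
        refine le_trans (Nat.cast_le.2 (Finset.card_le_card ?_)) h5
        intro z hz
        simp only [Finset.mem_filter] at hz ⊢
        refine ⟨hz.1, fun hgood => hz.2 ?_⟩
        intro γ hγ hγ0
        by_cases hlow : rk γ (fun i => val (x i) - y) < K
        · have h6 := hgood γ (Submodule.subset_span ⟨hγ, hlow⟩) hγ0
          refine h6.trans ?_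
          have h7 := rk_mono γ (fun i => val (Fin.append x z i) - y) (Fin.natAdd ((r + 1) * K))
          simp only [Fin.append_right] at h7
          exact h7
        · push Not at hlow
          refine hlow.trans ?_
          have h7 := rk_mono γ (fun i => val (Fin.append x z i) - y) (Fin.castAdd R')
          simp only [Fin.append_left] at h7
          exact h7)
    refine le_trans (Nat.cast_le.2 (Finset.card_le_card ?_)) (h3.trans (le_of_eq ?_))
    · intro z hz
      simp only [Finset.mem_filter] at hz ⊢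
      exact hz
    · push_cast
      ring

open Classical in
/-- The first coordinate is the base point. -/
theorem base_count {X : Type} (A : Finset X) {R : ℕ} (P : X → (Fin R → X) → Prop) (β : ℝ)
    (h : ∀ u ∈ A, (((Fintype.piFinset fun _ : Fin R => A).filter (P u)).card : ℝ) ≤
      β * (A.card : ℝ) ^ R) :
    (((Fintype.piFinset fun _ : Fin (R + 1) => A).filter
      (fun x => P (x 0) (Fin.tail x))).card : ℝ) ≤ β * (A.card : ℝ) ^ (R + 1) := by
  set a : ℝ := (A.card : ℝ) with ha
  set Φ := (Fintype.piFinset fun _ : Fin (R + 1) => A).filter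
      (fun x => P (x 0) (Fin.tail x)) with hΦ
  have hfib : Φ.card = ∑ u ∈ A, (Φ.filter (fun x => x 0 = u)).card := by
    apply Finset.card_eq_sum_card_fiberwise
    intro x hx
    rw [Finset.mem_coe, hΦ, Finset.mem_filter, Fintype.mem_piFinset] at hx
    exact hx.1 0
  rw [hfib]
  push_cast
  have hall : ∀ u ∈ A, ((Φ.filter (fun x => x 0 = u)).card : ℝ) ≤ β * a ^ R := by
    intro u hu
    refine le_trans (Nat.cast_le.2 ?_) (h u hu)
    refine Finset.card_le_card_of_injOn (fun x => Fin.tail x) ?_ ?_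
    · intro x hx
      rw [Finset.mem_coe, Finset.mem_filter, hΦ, Finset.mem_filter, Fintype.mem_piFinset] at hx
      rw [Finset.mem_coe, Finset.mem_filter, Fintype.mem_piFinset]
      refine ⟨fun i => hx.1.1 i.succ, ?_⟩
      have h2 := hx.1.2
      rw [hx.2] at h2
      exact h2
    · intro x hx x' hx' hxx
      rw [Finset.mem_coe, Finset.mem_filter] at hx hx'
      have h2 : Fin.tail x = Fin.tail x' := hxx
      rw [← Fin.cons_self_tail x, ← Fin.cons_self_tail x', hx.2, hx'.2, h2]
  refine (Finset.sum_le_sum hall).trans ?_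
  rw [Finset.sum_const, nsmul_eq_mul]
  apply le_of_eq
  rw [← ha]
  ring

end Pool.Agent.X231.EP
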