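import Mathlib
import Pool.Agent.Y918.GB.Mat
import Pool.Agent.Y918.EL.Cube2
import Pool.Agent.X231.EP.GenPos

set_option autoImplicit false

/-!
# The exceptional parameters of one block with several additive and multiplicative coordinates
-/

namespace Pool.Agent.X231.EP

open Module Finset
open Pool.Agent.H301R2.SSE (QB mem_QB)
open Pool.Agent.W245 (IndepOver)
open Pool.Agent.Y918.SC (monE Ex)
open Pool.Agent.Y918.RT (VA mem_VA card_coset)
open Pool.Agent.Y918.RP (LV mem_LV)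
open Pool.Agent.Y918.GB (asm asm_inl asm_inr count winE winE_inl sum_asm_eta pair_count)
open Pool.Agent.Y918.EL (mcubeR)

open Classical in
/-- **The exceptional parameters of one block are rare.** -/
theorem blockR (n : ℕ) (M1 : Type) [Fintype M1] [DecidableEq M1] (N D : ℕ) :
    ∃ (G K C : ℕ) (δ : ℝ), 0 < G ∧ 0 < δ ∧ δ ≤ 1 ∧ ∀ (M c : ℕ), c + K ≤ M →
    ∀ (I : Type) [Fintype I] [DecidableEq I] (σ : Fin G × Fin M → I), Function.Injective σ →
    ∀ A : Finset ℚ, A.Nonempty → ∀ W : Submodule QB ℂ, Module.Finite QB W → finrank QB W ≤ N →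
    ∀ (ζ : Fin n → ℂ) (X : I → Fin n → ℂ) (ξ : M1 → ℂ) (Y : I → M1 → ℂ),
    (∀ g (γ : Fin n → ℂ), γ ≠ 0 → ∀ V : Submodule QB ℂ, Module.Finite QB V → finrank QB V < K →
      finrank ℚ (LV (fun j : Fin M => dot γ (X (σ (g, j)))) V) + c ≤ M) →
    (∀ g (m : M1 → ℤ), m ≠ 0 → (∀ l, |m l| ≤ D) →
      finrank ℚ (VA (fun j : Fin M => ∑ l, (m l : ℂ) * Y (σ (g, j)) l)) + c ≤ M) →
    (((Fintype.piFinset fun _ : I => A).filter (fun P => ¬ IndepOver W (monE (D := D)
      (fun a => ζ a + ∑ i, (P i : ℂ) * X i a)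
      (fun l => Complex.exp (ξ l + ∑ i, (P i : ℂ) * Y i l))))).card : ℝ) ≤
      C * (A.card : ℝ) ^ ((Fintype.card I : ℝ) - δ * c) := by
  obtain ⟨G, K₀, hG0, hK0, hcube⟩ := mcubeR (Fin n) M1 N D
  obtain ⟨K, C₂, hKpos, hgen⟩ := genpos n K₀ hK0 n
  obtain ⟨Ms, hMs⟩ : ∃ Ms : Finset (M1 → ℤ), ∀ m : M1 → ℤ, m ∈ Ms ↔ ∀ l, |m l| ≤ D :=
    ⟨Fintype.piFinset fun _ => Finset.Icc (-(D : ℤ)) D, fun m => by
      rw [Fintype.mem_piFinset]
      simp only [Finset.mem_Icc, abs_le]⟩
  obtain ⟨C₁, hC₁⟩ : ∃ C₁ : ℕ, C₁ = C₂ + K * Ms.card + 1 := ⟨_, rfl⟩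
  obtain ⟨e, he⟩ : ∃ e : ℝ, e = (1 / (K + 1 : ℝ)) ^ G := ⟨_, rfl⟩
  have hK1 : (0 : ℝ) < K + 1 := by positivity
  have he0 : 0 < e := by rw [he]; positivity
  have he1 : e ≤ 1 := by
    rw [he]
    apply pow_le_one₀ (by positivity)
    rw [div_le_one hK1]
    have : (0 : ℝ) ≤ K := Nat.cast_nonneg _
    linarith
  refine ⟨G, K, G * C₁, e, hG0, he0, he1,
    fun M c hcM I _ _ σ hσ A hA W hW hWN ζ X ξ Y hadd hmul => ?_⟩
  obtain ⟨a, ha⟩ : ∃ a : ℝ, a = (A.card : ℝ) := ⟨_, rfl⟩
  rw [← ha]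
  have ha1 : 1 ≤ a := by
    rw [ha]
    exact_mod_cast hA.card_pos
  have ha0 : 0 < a := by linarith
  have hG1 : (1 : ℝ) ≤ G := by exact_mod_cast hG0
  have hC1 : (1 : ℝ) ≤ C₁ := by
    have : 1 ≤ C₁ := by omega
    exact_mod_cast this
  obtain ⟨ρ, hρ⟩ : ∃ ρ : ℝ, ρ = (a ^ c)⁻¹ := ⟨_, rfl⟩
  have hρ0 : 0 < ρ := by rw [hρ]; positivity
  obtain ⟨θ, hθ⟩ : ∃ θ : ℝ, θ = C₁ * ρ := ⟨_, rfl⟩
  have hθ0 : 0 < θ := by rw [hθ]; positivity
  have hρe : ρ ^ e = a ^ (-(e * c)) := by
    rw [hρ, ← Real.rpow_natCast, ← Real.rpow_neg ha0.le, ← Real.rpow_mul ha0.le]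
    congr 1
    ring
  have hCe : (C₁ : ℝ) ^ e ≤ C₁ := by
    calc (C₁ : ℝ) ^ e ≤ (C₁ : ℝ) ^ (1 : ℝ) := Real.rpow_le_rpow_of_exponent_le hC1 he1
      _ = C₁ := Real.rpow_one _
  have hθe : θ ^ e ≤ C₁ * a ^ (-(e * c)) := by
    rw [hθ, Real.mul_rpow (by linarith) hρ0.le, hρe]
    exact mul_le_mul_of_nonneg_right hCe (Real.rpow_nonneg ha0.le _)
  have hsplit : a ^ ((Fintype.card I : ℝ) - e * c) = a ^ Fintype.card I * a ^ (-(e * c)) := by
    rw [← Real.rpow_natCast, ← Real.rpow_add ha0]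
    congr 1
  have hfin : (G : ℝ) * θ ^ e * a ^ Fintype.card I ≤
      ((G * C₁ : ℕ) : ℝ) * a ^ ((Fintype.card I : ℝ) - e * c) := by
    rw [hsplit]
    push_cast
    calc (G : ℝ) * θ ^ e * a ^ Fintype.card I
        ≤ (G : ℝ) * (C₁ * a ^ (-(e * c))) * a ^ Fintype.card I := by gcongr
      _ = _ := by ring
  obtain ⟨XA, hXA⟩ : ∃ XA : Finset (Fin M → ℚ), XA = Fintype.piFinset fun _ => A := ⟨_, rfl⟩
  have hXAc : (XA.card : ℝ) = a ^ M := by
    rw [hXA, Fintype.card_piFinset_const, ha]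
    push_cast
    rfl
  rcases le_or_gt θ 1 with hθ1 | hθ1
  swap
  · -- trivial case
    refine le_trans (Nat.cast_le.2 (Finset.card_le_card (Finset.filter_subset _ _))) ?_
    have h1 : ((Fintype.piFinset fun _ : I => A).card : ℝ) = a ^ Fintype.card I := by
      rw [Fintype.card_piFinset, Finset.prod_const, Finset.card_univ, ha]
      push_cast
      rfl
    rw [h1]
    refine le_trans ?_ hfin
    have h2 : 1 ≤ θ ^ e := Real.one_le_rpow hθ1.le he0.le
    have h3 : 0 ≤ a ^ Fintype.card I := by positivity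
    calc a ^ Fintype.card I = 1 * 1 * a ^ Fintype.card I := by ring
      _ ≤ (G : ℝ) * θ ^ e * a ^ Fintype.card I := by gcongr
  obtain ⟨val, hval⟩ : ∃ val : Fin G → (Fin M → ℚ) → Fin n → ℂ,
      ∀ g u b, val g u b = ∑ j, (u j : ℂ) * X (σ (g, j)) b := ⟨_, fun _ _ _ => rfl⟩
  have hdot : ∀ g γ u, dot γ (val g u) = ∑ j, (u j : ℂ) * dot γ (X (σ (g, j))) := by
    intro g γ u
    unfold dot
    simp only [hval, Finset.mul_sum]
    rw [Finset.sum_comm]
    refine Finset.sum_congr rfl fun j _ => Finset.sum_congr rfl fun b _ => ?_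
    ring
  obtain ⟨badt, hbadt⟩ : ∃ badt : Fin G → (Fin (K + 1) → Fin M → ℚ) → Prop, ∀ g x, badt g x ↔
      (¬ ∀ γ ∈ (⊤ : Submodule ℂ (Fin n → ℂ)), γ ≠ 0 →
        K₀ ≤ rk γ (fun i : Fin K => val g (Fin.tail x i) - val g (x 0))) ∨
      ∃ i : Fin K, ∃ m ∈ Ms, m ≠ 0 ∧
        x i.succ - x 0 ∈ VA (fun j : Fin M => ∑ l, (m l : ℂ) * Y (σ (g, j)) l) :=
    ⟨_, fun _ _ => Iff.rfl⟩
  have hbt : ∀ g, (((Fintype.piFinset fun _ : Fin (K + 1) =>
      Fintype.piFinset fun _ : Fin M => A).filter (badt g)).card : ℝ) ≤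
      θ * ((A.card : ℝ) ^ M) ^ (K + 1) := by
    intro g
    rw [← ha, ← hXAc, ← hXA]
    obtain ⟨q, hq⟩ : ∃ q : ℝ, q = (XA.card : ℝ) ^ (K + 1) := ⟨_, rfl⟩
    have hq0 : 0 ≤ q := by rw [hq]; positivity
    rw [← hq]
    have h1 : (((Fintype.piFinset fun _ : Fin (K + 1) => XA).filter
        (fun x => ¬ ∀ γ ∈ (⊤ : Submodule ℂ (Fin n → ℂ)), γ ≠ 0 →
          K₀ ≤ rk γ (fun i : Fin K => val g (Fin.tail x i) - val g (x 0)))).card : ℝ) ≤
        C₂ * ρ * q := by
      rw [hq]
      refine le_trans (Nat.cast_le.2 (Finset.card_le_card ?_)) (base_count XA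
        (fun u z => ¬ ∀ γ ∈ (⊤ : Submodule ℂ (Fin n → ℂ)), γ ≠ 0 →
          K₀ ≤ rk γ (fun i : Fin K => val g (z i) - val g u)) (C₂ * ρ) ?_)
      · intro x hx
        simp only [Finset.mem_filter] at hx ⊢
        exact hx
      · intro u _
        have h2 := hgen (Fin M → ℚ) XA (val g) ρ hρ0.le ⊤ (by
          refine (Submodule.finrank_le _).trans ?_
          rw [Module.finrank_fintype_fun_eq_card, Fintype.card_fin]) (by
          intro γ _ hγ V hV hVK y
          have h2 : (XA.filter (fun u => dot γ (val g u) - y ∈ V)).card ≤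
              A.card ^ finrank ℚ (LV (fun j : Fin M => dot γ (X (σ (g, j)))) V) := by
            rcases (XA.filter (fun u => dot γ (val g u) - y ∈ V)).eq_empty_or_nonempty with
              h0 | ⟨u₀, hu₀⟩
            · rw [h0]
              simp
            refine le_trans (Finset.card_le_card ?_)
              (card_coset (LV (fun j : Fin M => dot γ (X (σ (g, j)))) V) A u₀)
            intro u hu
            rw [Finset.mem_filter] at hu hu₀ ⊢
            rw [← hXA]
            refine ⟨hu.1, ?_⟩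
            rw [mem_LV]
            have h3 := V.sub_mem hu.2 hu₀.2
            have h4 : (dot γ (val g u) - y) - (dot γ (val g u₀) - y) =
                ∑ j, (((u - u₀) j : ℚ) : ℂ) * dot γ (X (σ (g, j))) := by
              rw [hdot, hdot, sub_sub_sub_cancel_right, ← Finset.sum_sub_distrib]
              refine Finset.sum_congr rfl fun j _ => ?_
              rw [Pi.sub_apply]
              push_cast
              ring
            rw [h4] at h3
            exact h3
          have h5 : ((XA.filter (fun u => dot γ (val g u) - y ∈ V)).card : ℝ) ≤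
              a ^ finrank ℚ (LV (fun j : Fin M => dot γ (X (σ (g, j)))) V) := by
            rw [ha]
            exact_mod_cast h2
          refine h5.trans ?_
          rw [hXAc, hρ, inv_mul_eq_div, le_div_iff₀ (by positivity), ← pow_add]
          exact pow_le_pow_right₀ ha1 (hadd g γ hγ V hV hVK)) (val g u)
        refine le_trans (Nat.cast_le.2 (Finset.card_le_card ?_)) h2
        intro z hz
        simp only [Finset.mem_filter] at hz ⊢
        exact hz
    have h2 : ∀ (i : Fin K) (m : M1 → ℤ), m ∈ Ms → m ≠ 0 →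
        (((Fintype.piFinset fun _ : Fin (K + 1) => XA).filter (fun x => x i.succ - x 0 ∈
          VA (fun j : Fin M => ∑ l, (m l : ℂ) * Y (σ (g, j)) l))).card : ℝ) ≤ ρ * q := by
      intro i m hm hm0
      rw [hq]
      refine pair_count XA i (fun u v => v - u ∈
        VA (fun j : Fin M => ∑ l, (m l : ℂ) * Y (σ (g, j)) l)) ρ ?_
      intro u _
      have h3 := card_coset (VA (fun j : Fin M => ∑ l, (m l : ℂ) * Y (σ (g, j)) l)) A u
      rw [← hXA] at h3
      have h4 : ((XA.filter (fun v => v - u ∈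
          VA (fun j : Fin M => ∑ l, (m l : ℂ) * Y (σ (g, j)) l))).card : ℝ) ≤
          a ^ finrank ℚ (VA (fun j : Fin M => ∑ l, (m l : ℂ) * Y (σ (g, j)) l)) := by
        rw [ha]
        exact_mod_cast h3
      refine h4.trans ?_
      rw [hXAc, hρ, inv_mul_eq_div, le_div_iff₀ (by positivity), ← pow_add]
      exact pow_le_pow_right₀ ha1 (hmul g m hm0 ((hMs m).1 hm))
    have h3 : ((Fintype.piFinset fun _ : Fin (K + 1) => XA).filter (badt g)) ⊆
        (Fintype.piFinset fun _ : Fin (K + 1) => XA).filter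
          (fun x => ¬ ∀ γ ∈ (⊤ : Submodule ℂ (Fin n → ℂ)), γ ≠ 0 →
            K₀ ≤ rk γ (fun i : Fin K => val g (Fin.tail x i) - val g (x 0))) ∪
        (((Finset.univ : Finset (Fin K)) ×ˢ (Ms.filter (fun m => m ≠ 0))).biUnion fun p =>
          (Fintype.piFinset fun _ : Fin (K + 1) => XA).filter (fun x => x p.1.succ - x 0 ∈
            VA (fun j : Fin M => ∑ l, (p.2 l : ℂ) * Y (σ (g, j)) l))) := by
      intro x hx
      rw [Finset.mem_filter, hbadt] at hx
      rw [Finset.mem_union, Finset.mem_biUnion]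
      rcases hx.2 with hb | ⟨i, m, hm, hm0, hV⟩
      · exact Or.inl (Finset.mem_filter.2 ⟨hx.1, hb⟩)
      · exact Or.inr ⟨(i, m), Finset.mem_product.2 ⟨Finset.mem_univ _,
          Finset.mem_filter.2 ⟨hm, hm0⟩⟩, Finset.mem_filter.2 ⟨hx.1, hV⟩⟩
    have h4 : (((Fintype.piFinset fun _ : Fin (K + 1) => XA).filter (badt g)).card : ℝ) ≤
        C₂ * ρ * q + ∑ p ∈ (Finset.univ : Finset (Fin K)) ×ˢ (Ms.filter (fun m => m ≠ 0)),
          ρ * q := by
      refine le_trans (Nat.cast_le.2 ((Finset.card_le_card h3).trans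
        ((Finset.card_union_le _ _).trans (add_le_add le_rfl
          Finset.card_biUnion_le)))) ?_
      push_cast
      refine add_le_add h1 (Finset.sum_le_sum fun p hp => ?_)
      rw [Finset.mem_product, Finset.mem_filter] at hp
      exact h2 p.1 p.2 hp.2.1 hp.2.2
    refine h4.trans ?_
    rw [Finset.sum_const, Finset.card_product, Finset.card_univ, Fintype.card_fin, nsmul_eq_mul]
    have h5 : ((Ms.filter (fun m => m ≠ 0)).card : ℝ) ≤ Ms.card := by
      exact_mod_cast Finset.card_le_card (Finset.filter_subset _ _)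
    have h6 : 0 ≤ ρ * q := mul_nonneg hρ0.le hq0
    have h7 : (0 : ℝ) ≤ K := Nat.cast_nonneg _
    rw [hθ, hC₁]
    push_cast
    have h8 : (K : ℝ) * ((Ms.filter (fun m => m ≠ 0)).card : ℝ) * (ρ * q) ≤
        K * Ms.card * (ρ * q) := by gcongr
    nlinarith
  have h0 := count (winE σ hσ) A θ hθ0 hθ1 badt (fun g => by convert hbt g)
    (fun P => ¬ IndepOver W (monE (D := D)
      (fun a => ζ a + ∑ i, (P i : ℂ) * X i a)
      (fun l => Complex.exp (ξ l + ∑ i, (P i : ℂ) * Y i l)))) (by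
      intro y x hnd
      obtain ⟨η, hη⟩ := hcube W hW hWN K hKpos
        (fun b => ζ b + ∑ i, (asm (winE σ hσ) (fun g => x g 0) y i : ℂ) * X i b)
        (fun l => ξ l + ∑ i, (asm (winE σ hσ) (fun g => x g 0) y i : ℂ) * Y i l)
        (fun g i b => val g (x g i.succ) b - val g (x g 0) b)
        (fun g i l => ∑ j, (((x g i.succ - x g 0) j : ℚ) : ℂ) * Y (σ (g, j)) l)
        (by
          intro g γ hγ
          have h1 := hnd g
          rw [hbadt, not_or, not_not] at h1
          exact h1.1 γ Submodule.mem_top hγ)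
        (by
          intro g i m hm0 hm halg
          refine hnd g ((hbadt _ _).2 (Or.inr ⟨i, m, (hMs m).2 hm, hm0, ?_⟩))
          rw [mem_VA]
          convert halg using 2
          simp only [Finset.mul_sum]
          rw [Finset.sum_comm]
          refine Finset.sum_congr rfl fun l _ => Finset.sum_congr rfl fun j _ => ?_
          ring)
      refine ⟨fun g => (η g).elim 0 Fin.succ, fun hbad => hbad ?_⟩
      have e1 : ∀ b, ζ b + ∑ i, (asm (winE σ hσ) (fun g => x g ((η g).elim 0 Fin.succ)) y i : ℂ) *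
          X i b = (ζ b + ∑ i, (asm (winE σ hσ) (fun g => x g 0) y i : ℂ) * X i b) +
            ∑ g, (η g).elim 0 (fun i => val g (x g i.succ) b - val g (x g 0) b) := by
        intro b
        rw [sum_asm_eta, ← add_assoc]
        congr 1
        refine Finset.sum_congr rfl fun g _ => ?_
        rcases η g with _ | i
        · rfl
        · simp only [Option.elim_some, hval]
          rw [← Finset.sum_sub_distrib]
          refine Finset.sum_congr rfl fun j _ => ?_
          rw [winE_inl, Pi.sub_apply]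
          push_cast
          ring
      have e2 : ∀ l, ξ l + ∑ i, (asm (winE σ hσ) (fun g => x g ((η g).elim 0 Fin.succ)) y i : ℂ) *
          Y i l = (ξ l + ∑ i, (asm (winE σ hσ) (fun g => x g 0) y i : ℂ) * Y i l) +
            ∑ g, (η g).elim 0 (fun i => ∑ j, (((x g i.succ - x g 0) j : ℚ) : ℂ) *
              Y (σ (g, j)) l) := by
        intro l
        rw [sum_asm_eta, ← add_assoc]
        simp only [winE_inl]
      have e3 : (fun b => ζ b + ∑ i, (asm (winE σ hσ)
          (fun g => x g ((η g).elim 0 Fin.succ)) y i : ℂ) * X i b) = _ := funext e1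
      have e4 : (fun l => Complex.exp (ξ l + ∑ i, (asm (winE σ hσ)
          (fun g => x g ((η g).elim 0 Fin.succ)) y i : ℂ) * Y i l)) = _ :=
        funext fun l => congrArg Complex.exp (e2 l)
      rw [e3, e4]
      exact hη)
  rw [← he, ← ha] at h0
  refine le_trans (le_of_eq ?_) (h0.trans hfin)
  refine congrArg (fun n : ℕ => (n : ℝ)) ?_
  refine congrArg Finset.card ?_
  ext P
  simp only [Finset.mem_filter]

end Pool.Agent.X231.EP
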