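import Mathlib
import Pool.Agent.W254.HP.Gen
import Pool.Agent.Y918.GB.Mat

set_option autoImplicit false

/-!
# Values of polynomials at several transcendental numbers: ranks
-/

namespace Pool.Agent.X231.EP

open Module Finset
open Pool.Agent.H301R2.SSE (QB mem_QB Lt Lt_rep Lt_mul Lt_alg Lt_log)
open Pool.Agent.W254.HP
open Pool.Agent.Y918.RT (VA mem_VA)
open Pool.Agent.Y918.RP (LV mem_LV)
open Pool.Agent.Y918.GB (LV_le)

/-- `∑_i w_i t_i^j` -/
noncomputable def pv {n : ℕ} (t w : Fin n → ℂ) (j : ℕ) : ℂ := ∑ i, w i * t i ^ j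

/-- The space generated by the numbers `pv t w j`, `j < M`. -/
noncomputable def Rsp {n : ℕ} (t w : Fin n → ℂ) (M : ℕ) : Submodule QB ℂ :=
  Submodule.span QB (Set.range fun j : Fin M => pv t w j)

instance {n : ℕ} (t w : Fin n → ℂ) (M : ℕ) : Module.Finite QB (Rsp t w M) :=
  FiniteDimensional.span_of_finite QB (Set.finite_range _)

/-- The map `φ ↦ ∑ w_i t_i^(h s) φ_(i,s)`. -/
noncomputable def comb2 {n : ℕ} (t w : Fin n → ℂ) (h S : ℕ) :
    (Fin n × Fin S → boxV t h) →ₗ[QB] ℂ :=
  ∑ p : Fin n × Fin S, (LinearMap.mulLeft QB (w p.1 * t p.1 ^ (h * (p.2 : ℕ)))) ∘ₗ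
    (boxV t h).subtype ∘ₗ LinearMap.proj p

theorem comb2_apply {n : ℕ} (t w : Fin n → ℂ) (h S : ℕ) (v : Fin n × Fin S → boxV t h) :
    comb2 t w h S v = ∑ p, (w p.1 * t p.1 ^ (h * (p.2 : ℕ))) * (v p : ℂ) := by
  unfold comb2
  rw [LinearMap.sum_apply]
  rfl

theorem comb2_finrank {n : ℕ} (t w : Fin n → ℂ) (h S : ℕ) :
    finrank QB (LinearMap.range (comb2 t w h S)) ≤ n * S * finrank QB (boxV t h) := by
  refine (LinearMap.finrank_range_le _).trans ?_
  rw [Module.finrank_pi_fintype]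
  simp

theorem mon_mul_mem {n : ℕ} (t w : Fin n → ℂ) {h M : ℕ} (hh : 0 < h) (e : Fin n → Fin h)
    {j : ℕ} (hj : j < M) :
    (∏ i, t i ^ (e i : ℕ)) * pv t w j ∈ LinearMap.range (comb2 t w h (M / h + 2)) := by
  classical
  unfold pv
  rw [Finset.mul_sum]
  refine Submodule.sum_mem _ fun i _ => ?_
  -- the exponents
  have hs : (j + e i) / h < M / h + 2 := by
    rw [Nat.div_lt_iff_lt_mul hh, Nat.add_mul]
    have h1 := Nat.lt_div_mul_add (a := M) hh
    have h2 := (e i).2
    omega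
  let e' : Fin n → ℕ := Function.update (fun l => (e l : ℕ)) i ((j + e i) % h)
  have he' : ∀ l, e' l < h := by
    intro l
    by_cases hl : l = i
    · subst hl
      simp only [e', Function.update_self]
      exact Nat.mod_lt _ hh
    · simp only [e', Function.update_of_ne hl]
      exact (e l).2
  have hm := mon_mem t h e' he'
  refine ⟨Pi.single (i, ⟨(j + e i) / h, hs⟩) ⟨_, hm⟩, ?_⟩
  rw [comb2_apply, Finset.sum_eq_single (i, ⟨(j + e i) / h, hs⟩)]
  · rw [Pi.single_eq_same]
    change w i * t i ^ (h * ((j + e i) / h)) * ∏ l, t l ^ e' l = (∏ l, t l ^ (e l : ℕ)) * (w i * t i ^ j)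
    rw [← Finset.mul_prod_erase _ _ (Finset.mem_univ i),
      ← Finset.mul_prod_erase Finset.univ (fun l => t l ^ (e l : ℕ)) (Finset.mem_univ i)]
    have h3 : ∏ l ∈ Finset.univ.erase i, t l ^ e' l =
        ∏ l ∈ Finset.univ.erase i, t l ^ (e l : ℕ) := by
      refine Finset.prod_congr rfl fun l hl => ?_
      simp only [e', Function.update_of_ne (Finset.ne_of_mem_erase hl)]
    have h4 : e' i = (j + e i) % h := by simp only [e', Function.update_self]
    rw [h3, h4]
    have h5 : t i ^ (h * ((j + e i) / h)) * t i ^ ((j + e i) % h) = t i ^ j * t i ^ (e i : ℕ) := by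
      rw [← pow_add, Nat.div_add_mod, pow_add]
    calc w i * t i ^ (h * ((j + ↑(e i)) / h)) *
          (t i ^ ((j + ↑(e i)) % h) * ∏ x ∈ univ.erase i, t x ^ (e x : ℕ))
        = w i * (t i ^ (h * ((j + e i) / h)) * t i ^ ((j + e i) % h)) *
          ∏ x ∈ univ.erase i, t x ^ (e x : ℕ) := by ring
      _ = _ := by rw [h5]; ring
  · intro p _ hp
    rw [Pi.single_eq_of_ne hp]
    simp
  · intro hh'
    exact absurd (Finset.mem_univ _) hh'

theorem comb2_mul {n : ℕ} (t w : Fin n → ℂ) {h M : ℕ} (hh : 0 < h) :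
    ∀ b ∈ boxV t h, ∀ a ∈ Rsp t w M, b * a ∈ LinearMap.range (comb2 t w h (M / h + 2)) := by
  intro b hb a ha
  unfold Rsp at ha
  induction ha using Submodule.span_induction with
  | mem x hx =>
    obtain ⟨j, rfl⟩ := hx
    unfold boxV at hb
    induction hb using Submodule.span_induction with
    | mem y hy =>
      obtain ⟨e, rfl⟩ := hy
      exact mon_mul_mem t w hh e j.2
    | zero => rw [zero_mul]; exact Submodule.zero_mem _
    | add y z _ _ h1 h2 => rw [add_mul]; exact Submodule.add_mem _ h1 h2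
    | smul c y _ h1 =>
      rw [Algebra.smul_mul_assoc]
      exact Submodule.smul_mem _ _ h1
  | zero => rw [mul_zero]; exact Submodule.zero_mem _
  | add y z _ _ h1 h2 => rw [mul_add]; exact Submodule.add_mem _ h1 h2
  | smul c y _ h1 =>
    rw [Algebra.mul_smul_comm]
    exact Submodule.smul_mem _ _ h1

/-- **Linear forms in logarithms among the numbers `∑ w_i Q(t_i)`.** -/
theorem forms2 {n : ℕ} (t w : Fin n → ℂ) {h : ℕ} (hh : 0 < h) (M : ℕ) (V : Submodule QB ℂ)
    (hV : V ≤ Lt) (hVR : V ≤ Rsp t w M) : finrank QB V ≤ n * (M / h + 2) + h ^ n := by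
  have hVfd : FiniteDimensional QB V := Submodule.finiteDimensional_of_le hVR
  have h1 := product_le (boxV t h) V (LinearMap.range (comb2 t w h (M / h + 2))) hV
    (fun x hx v hv => comb2_mul t w hh x hx v (hVR hv))
  have h2 := comb2_finrank t w h (M / h + 2)
  have h4 := finrank_boxV_le t h
  have h5 := finrank_boxV_pos t hh
  obtain ⟨N, hN⟩ : ∃ N, finrank QB (boxV t h) = N + 1 := ⟨finrank QB (boxV t h) - 1, by omega⟩
  rw [hN] at h1 h2 h4
  rw [Nat.add_sub_cancel] at h1
  have h6 : (N + 1) * finrank QB V ≤ (N + 1) * (n * (M / h + 2) + N) := by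
    calc (N + 1) * finrank QB V ≤ _ := h1
      _ ≤ n * (M / h + 2) * (N + 1) + (N + 1) * N := by omega
      _ = _ := by ring
  have h7 := Nat.le_of_mul_le_mul_left h6 (Nat.succ_pos N)
  omega

theorem pow_li {t : ℂ} (ht : Transcendental ℚ t) (m : ℕ) (c : Fin m → QB)
    (h : ∑ i, (c i : ℂ) * t ^ (i : ℕ) = 0) : ∀ i, c i = 0 := by
  have hQ : Transcendental QB t := by
    intro halg
    have : Algebra.IsAlgebraic ℚ QB := algebraicClosure.isAlgebraic ℚ ℂ
    exact ht (halg.restrictScalars ℚ)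
  rw [transcendental_iff] at hQ
  have h1 := hQ (∑ i : Fin m, Polynomial.monomial (i : ℕ) (c i)) (by
    rw [map_sum, ← h]
    refine Finset.sum_congr rfl fun i _ => ?_
    rw [Polynomial.aeval_monomial]
    rfl)
  intro i
  have h2 := congrArg (fun q => Polynomial.coeff q (i : ℕ)) h1
  simp only [Polynomial.finsetSum_coeff, Polynomial.coeff_monomial, Polynomial.coeff_zero] at h2
  rw [Finset.sum_eq_single i (by
    intro b _ hb
    rw [if_neg (fun hh => hb (Fin.ext hh))]) (by intro hh; exact absurd (Finset.mem_univ i) hh),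
    if_pos rfl] at h2
  exact h2

/-- **The rank of the numbers `∑ w_i t_i^j`.** -/
theorem rank_lower {n : ℕ} (t w : Fin n → ℂ) (ht : Function.Injective t)
    {i₀ : Fin n} (htr : Transcendental ℚ (t i₀)) (hw : w i₀ ≠ 0) (M : ℕ) :
    M + 1 ≤ n * finrank QB (Rsp t w M) + n := by
  classical
  rcases Nat.lt_or_ge M n with hM | hM
  · omega
  -- the coefficients of the Lagrange polynomial
  set L : Polynomial ℂ := Lagrange.basis Finset.univ t i₀ with hL
  have hLdeg : L.natDegree < n := by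
    have h1 := Lagrange.natDegree_basis (s := Finset.univ) (v := t)
      (fun x _ y _ h => ht h) (Finset.mem_univ i₀)
    rw [Finset.card_univ, Fintype.card_fin, ← hL] at h1
    have h2 := i₀.2
    omega
  have hLe : ∀ x : ℂ, L.eval x = ∑ r : Fin n, L.coeff r * x ^ (r : ℕ) := by
    intro x
    rw [Polynomial.eval_eq_sum_range' hLdeg, Finset.sum_range]
  have hL0 : L.eval (t i₀) = 1 := Lagrange.eval_basis_self (fun x _ y _ h => ht h) (Finset.mem_univ i₀)
  have hL1 : ∀ l, l ≠ i₀ → L.eval (t l) = 0 := fun l hl =>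
    Lagrange.eval_basis_of_ne hl.symm (Finset.mem_univ l)
  have key : ∀ a : ℕ, w i₀ * t i₀ ^ a = ∑ r : Fin n, L.coeff r * pv t w (a + r) := by
    intro a
    have h1 : ∑ r : Fin n, L.coeff r * pv t w (a + r) = ∑ l, w l * t l ^ a * L.eval (t l) := by
      unfold pv
      simp only [Finset.mul_sum, hLe]
      rw [Finset.sum_comm]
      refine Finset.sum_congr rfl fun l _ => Finset.sum_congr rfl fun r _ => ?_
      rw [pow_add]
      ring
    rw [h1, Finset.sum_eq_single i₀, hL0, mul_one]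
    · intro l _ hl
      rw [hL1 l hl, mul_zero]
    · intro hh
      exact absurd (Finset.mem_univ _) hh
  let Φ : (Fin n → Rsp t w M) →ₗ[QB] ℂ :=
    ∑ r : Fin n, (LinearMap.mulLeft QB (L.coeff r)) ∘ₗ (Rsp t w M).subtype ∘ₗ LinearMap.proj r
  have hΦ : ∀ v, Φ v = ∑ r : Fin n, L.coeff r * (v r : ℂ) := by
    intro v
    change (∑ r : Fin n, _ : (Fin n → Rsp t w M) →ₗ[QB] ℂ) v = _
    rw [LinearMap.sum_apply]
    rfl
  have hmem : ∀ a : Fin (M + 1 - n), w i₀ * t i₀ ^ (a : ℕ) ∈ LinearMap.range Φ := by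
    intro a
    have ha := a.2
    refine ⟨fun r => ⟨pv t w (a + r), Submodule.subset_span ⟨⟨a + r, by omega⟩, rfl⟩⟩, ?_⟩
    rw [hΦ, key]
  have hli : LinearIndependent QB (fun a : Fin (M + 1 - n) =>
      (⟨w i₀ * t i₀ ^ (a : ℕ), hmem a⟩ : LinearMap.range Φ)) := by
    have h2 : LinearIndependent QB (fun a : Fin (M + 1 - n) => w i₀ * t i₀ ^ (a : ℕ)) := by
      rw [Fintype.linearIndependent_iff]
      intro g hg
      refine pow_li htr _ g ?_
      have h1 : w i₀ * ∑ i, ((g i : QB) : ℂ) * t i₀ ^ (i : ℕ) = 0 := by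
        rw [← hg, Finset.mul_sum]
        refine Finset.sum_congr rfl fun i _ => ?_
        rw [Algebra.smul_def]
        change w i₀ * (((g i : QB) : ℂ) * t i₀ ^ (i : ℕ)) = ((g i : QB) : ℂ) * (w i₀ * t i₀ ^ (i : ℕ))
        ring
      exact (mul_eq_zero.1 h1).resolve_left hw
    exact LinearIndependent.of_comp (LinearMap.range Φ).subtype h2
  have h3 := hli.fintype_card_le_finrank
  rw [Fintype.card_fin] at h3
  have h4 := LinearMap.finrank_range_le Φ
  rw [Module.finrank_pi_fintype] at h4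
  simp only [Finset.sum_const, Finset.card_univ, Fintype.card_fin, smul_eq_mul] at h4
  omega

/-- **The rational vectors with algebraic exponentials.** -/
theorem VA_le2 {n : ℕ} (t w : Fin n → ℂ) (ht : Function.Injective t)
    {i₀ : Fin n} (htr : Transcendental ℚ (t i₀)) (hw : w i₀ ≠ 0) {h : ℕ} (hh : 0 < h) (M : ℕ) :
    n * finrank ℚ (VA (fun j : Fin M => pv t w j)) + M + 1 ≤
      n * M + n * (n * (M / h + 2) + h ^ n) + n := by
  set x : Fin M → ℂ := fun j => pv t w j with hx
  let V : Submodule QB ℂ := Submodule.span QB {z | ∃ q ∈ VA x, z = ∑ j, (q j : ℂ) * x j}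
  have hVR : V ≤ Rsp t w M := by
    refine Submodule.span_le.2 ?_
    rintro _ ⟨q, _, rfl⟩
    refine Submodule.sum_mem _ fun j _ => ?_
    have h1 : (q j : ℂ) * x j = ((q j : ℚ) : QB) • x j := by
      rw [Algebra.smul_def]
      congr 1
    rw [h1]
    exact Submodule.smul_mem _ _ (Submodule.subset_span ⟨j, rfl⟩)
  have hVL : V ≤ Lt := by
    refine Submodule.span_le.2 ?_
    rintro _ ⟨q, hq, rfl⟩
    exact Lt_log ((mem_VA _ _).1 hq)
  have hVfd : Module.Finite QB V := Submodule.finiteDimensional_of_le hVR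
  have h1 := forms2 t w hh M V hVL hVR
  have h2 := LV_le x V
  have h3 : finrank ℚ (VA x) ≤ finrank ℚ (LV x V) := by
    apply Submodule.finrank_mono
    intro q hq
    rw [mem_LV]
    exact Submodule.subset_span ⟨q, hq, rfl⟩
  have h4 := rank_lower t w ht htr hw M
  have h5 : Submodule.span QB (Set.range x) = Rsp t w M := rfl
  rw [h5] at h2
  have h6 : n * (finrank ℚ (VA x) + finrank QB (Rsp t w M)) ≤
      n * (M + (n * (M / h + 2) + h ^ n)) := Nat.mul_le_mul_left n (by omega)
  rw [Nat.mul_add, Nat.mul_add] at h6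
  omega

/-- The rational vectors with values in a small space. -/
theorem LV_le2 {n : ℕ} (t w : Fin n → ℂ) (ht : Function.Injective t)
    {i₀ : Fin n} (htr : Transcendental ℚ (t i₀)) (hw : w i₀ ≠ 0) (M : ℕ) (V : Submodule QB ℂ)
    [Module.Finite QB V] :
    n * finrank ℚ (LV (fun j : Fin M => pv t w j) V) + M + 1 ≤ n * M + n * finrank QB V + n := by
  set x : Fin M → ℂ := fun j => pv t w j with hx
  have h2 := LV_le x V
  have h4 := rank_lower t w ht htr hw M
  have h5 : Submodule.span QB (Set.range x) = Rsp t w M := rfl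
  rw [h5] at h2
  have h6 : n * (finrank ℚ (LV x V) + finrank QB (Rsp t w M)) ≤ n * (M + finrank QB V) :=
    Nat.mul_le_mul_left n h2
  rw [Nat.mul_add, Nat.mul_add] at h6
  omega

end Pool.Agent.X231.EP
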