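import Mathlib
import Pool.Agent.X231.EP.One
import Pool.Agent.X231.EP.BlockR

set_option autoImplicit false

/-!
# Random polynomials at several transcendental numbers, several additive coordinates
-/

namespace Pool.Agent.X231.EP

open Module Finset
open Pool.Agent.H301R2.SSE (QB mem_QB Lt Lt_rep Lt_mul Lt_alg Lt_log)
open Pool.Agent.W245 (IndepOver IndepT famExt famExt_finite)
open Pool.Agent.Y918.RT (VA mem_VA)
open Pool.Agent.Y918.RP (LV mem_LV)
open Pool.Agent.Y918.GB

theorem dot_pv {n r : ℕ} (t : Fin n → ℂ) (v : Fin r → Fin n → ℂ) (γ : Fin r → ℂ) (j : ℕ) :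
    dot γ (fun a => pv t (v a) j) = pv t (fun i => ∑ a, γ a * v a i) j := by
  unfold dot pv
  simp only [Finset.mul_sum, Finset.sum_mul]
  rw [Finset.sum_comm]
  refine Finset.sum_congr rfl fun i _ => Finset.sum_congr rfl fun a _ => ?_
  ring

open Classical in
theorem oneR (n r L D N : ℕ) (hn : 0 < n) : ∃ (k₀ C : ℕ) (δ : ℝ), 0 < δ ∧ ∀ k ≥ k₀,
    ∀ (t : Fin n → ℂ) (v : Fin r → Fin n → ℂ) (u : Fin L → Fin n → ℂ), Function.Injective t →
    (∀ i, Transcendental ℚ (t i)) → LinearIndependent ℂ v → LinearIndependent ℚ u →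
    ∀ A : Finset ℚ, A.Nonempty →
    ∀ W : Submodule QB ℂ, Module.Finite QB W → finrank QB W ≤ N → ∀ (ζ : Fin r → ℂ) (ξ : Fin L → ℂ),
    (((Fintype.piFinset fun _ : Fin k => A).filter (fun p => ¬ IndepOver W
      (fun e : Fin r ⊕ Fin L → Fin (D + 1) => ∏ s, (Sum.elim (fun a => ζ a + comb t (v a) p)
        (fun l => Complex.exp (ξ l + comb t (u l) p)) s) ^ (e s : ℕ)))).card : ℝ) ≤
      C * (A.card : ℝ) ^ ((k : ℝ) - δ * k) := by
  obtain ⟨G, K, C, δ₀, hG, hδ, hδ1, hb⟩ := blockR r (Fin L) N D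
  obtain ⟨h, hh⟩ : ∃ h, h = 4 * n ^ 2 := ⟨_, rfl⟩
  have hh0 : 0 < h := by rw [hh]; positivity
  obtain ⟨H, hH⟩ : ∃ H, H = h ^ n := ⟨_, rfl⟩
  obtain ⟨E, hE⟩ : ∃ E, E = 2 * n + H + K + 2 := ⟨_, rfl⟩
  refine ⟨G * h * E, C, δ₀ / (8 * (G * n : ℕ)), by positivity,
    fun k hk t v u ht htr hv hu A hA W hW hWN ζ ξ => ?_⟩
  obtain ⟨M', hM'⟩ : ∃ M', M' = k / (G * h) := ⟨_, rfl⟩
  have hGh : 0 < G * h := by positivity
  have hM'E : E ≤ M' := by
    rw [hM', Nat.le_div_iff_mul_le hGh, mul_comm]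
    exact hk
  obtain ⟨M, hM⟩ : ∃ M, M = h * M' := ⟨_, rfl⟩
  have hMh : M / h = M' := by rw [hM]; exact Nat.mul_div_cancel_left _ hh0
  have hGM : G * M ≤ k := by
    rw [hM, hM', ← mul_assoc]
    exact Nat.mul_div_le k (G * h)
  have hkM : k < G * h * (M' + 1) := by
    rw [hM']
    exact Nat.lt_mul_div_succ k hGh
  have hM4 : M = n * (4 * n * M') := by
    rw [hM, hh]
    ring
  obtain ⟨q, hq⟩ : ∃ q, q = n * M' := ⟨_, rfl⟩
  have hqM : M' ≤ q := by
    rw [hq]
    exact Nat.le_mul_of_pos_left _ hn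
  have h4q : 4 * n * M' = 4 * q := by rw [hq]; ring
  rw [h4q] at hM4
  have hMq : 4 * q ≤ M := by
    rw [hM4]
    exact Nat.le_mul_of_pos_left _ hn
  obtain ⟨c, hc⟩ : ∃ c, c = 3 * q - E := ⟨_, rfl⟩
  have hc1 : c + K ≤ M := by omega
  have hcq : 2 * q ≤ c := by omega
  have h8 : k ≤ 8 * (G * n) * c := by
    have h1 : G * h * (M' + 1) ≤ 8 * (G * n) * (2 * q) := by
      have h2 : M' + 1 ≤ 2 * M' := by omega
      calc G * h * (M' + 1) ≤ G * h * (2 * M') := Nat.mul_le_mul_left _ h2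
        _ = 8 * (G * n) * q := by rw [hh, hq]; ring
        _ ≤ 8 * (G * n) * (2 * q) := Nat.mul_le_mul_left _ (by omega)
    exact (hkM.le.trans h1).trans (Nat.mul_le_mul_left _ hcq)
  have ha1 : (1 : ℝ) ≤ (A.card : ℝ) := by exact_mod_cast hA.card_pos
  have ht0 : ∀ i, t i ≠ 0 := fun i h0 => htr i (by rw [h0]; exact isAlgebraic_zero)
  have h0 := hb M c hc1 (Fin k) (win hGM (id : Fin G → Fin G))
    (win_injective hGM Function.injective_id) A hA W hW hWN
    ζ (fun r a => pv t (v a) r) ξ (fun r l => pv t (u l) r)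
    (by
      intro g γ hγ V hV hVK
      obtain ⟨i₀, hi₀⟩ : ∃ i₀, ∑ a, γ a * v a i₀ ≠ 0 := by
        by_contra hcon
        push Not at hcon
        apply hγ
        funext a
        exact Fintype.linearIndependent_iff.1 hv γ (by
          funext i
          rw [Finset.sum_apply, Pi.zero_apply, ← hcon i]
          refine Finset.sum_congr rfl fun l _ => ?_
          rw [Pi.smul_apply, smul_eq_mul]) a
      have hw : (fun i => (∑ a, γ a * v a i) * t i ^ (M * (g : ℕ))) i₀ ≠ 0 :=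
        mul_ne_zero hi₀ (pow_ne_zero _ (ht0 i₀))
      have h1 := LV_le2 t (fun i => (∑ a, γ a * v a i) * t i ^ (M * (g : ℕ))) ht (htr i₀) hw M V
      have h3 : (fun j : Fin M => dot γ (fun a => pv t (v a)
          (win hGM (id : Fin G → Fin G) (g, j)))) =
          fun j : Fin M => pv t (fun i => (∑ a, γ a * v a i) * t i ^ (M * (g : ℕ))) j := by
        funext j
        rw [dot_pv]
        exact pv_shift t _ (M * (g : ℕ)) j
      rw [h3]
      set F := finrank ℚ (LV (fun j : Fin M =>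
        pv t (fun i => (∑ a, γ a * v a i) * t i ^ (M * (g : ℕ))) j) V) with hF
      have h5 : n * (F + 4 * q) < n * (M + K + 1) := by
        have h6 : n * finrank QB V ≤ n * K := Nat.mul_le_mul_left n hVK.le
        calc n * (F + 4 * q) = n * F + M := by rw [Nat.mul_add, ← hM4]
          _ < n * F + M + 1 := Nat.lt_succ_self _
          _ ≤ n * M + n * finrank QB V + n := h1
          _ ≤ n * M + n * K + n := by omega
          _ = n * (M + K + 1) := by ring
      have h7 := Nat.lt_of_mul_lt_mul_left h5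
      omega)
    (by
      intro g m hm0 _
      obtain ⟨i₀, hi₀⟩ : ∃ i₀, ∑ l, (m l : ℂ) * u l i₀ ≠ 0 := by
        by_contra hcon
        push Not at hcon
        apply hm0
        funext l
        have h5 := Fintype.linearIndependent_iff.1 hu (fun l => (m l : ℚ)) (by
          funext i
          rw [Finset.sum_apply, Pi.zero_apply, ← hcon i]
          refine Finset.sum_congr rfl fun l _ => ?_
          rw [Pi.smul_apply, Rat.smul_def]
          push_cast
          rfl) l
        exact_mod_cast h5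
      have hw : (fun i => (∑ l, (m l : ℂ) * u l i) * t i ^ (M * (g : ℕ))) i₀ ≠ 0 :=
        mul_ne_zero hi₀ (pow_ne_zero _ (ht0 i₀))
      have h1 := VA_le2 t (fun i => (∑ l, (m l : ℂ) * u l i) * t i ^ (M * (g : ℕ))) ht (htr i₀) hw
        hh0 M
      have h3 : (fun j : Fin M => ∑ l : Fin L, (m l : ℂ) *
          pv t (u l) (win hGM (id : Fin G → Fin G) (g, j))) =
          fun j : Fin M => pv t (fun i => (∑ l, (m l : ℂ) * u l i) * t i ^ (M * (g : ℕ))) j := by
        funext j
        have h4 := dot_pv t u (fun l => (m l : ℂ)) (win hGM (id : Fin G → Fin G) (g, j))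
        unfold dot at h4
        rw [h4]
        exact pv_shift t _ (M * (g : ℕ)) j
      rw [h3]
      set F := finrank ℚ (VA (fun j : Fin M =>
        pv t (fun i => (∑ l, (m l : ℂ) * u l i) * t i ^ (M * (g : ℕ))) j)) with hF
      rw [hMh, ← hH] at h1
      have h5 : n * (F + 4 * q) < n * (M + (n * (M' + 2) + H) + 1) := by
        calc n * (F + 4 * q) = n * F + M := by rw [Nat.mul_add, ← hM4]
          _ < n * F + M + 1 := Nat.lt_succ_self _
          _ ≤ n * M + n * (n * (M' + 2) + H) + n := h1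
          _ = n * (M + (n * (M' + 2) + H) + 1) := by ring
      have h7 := Nat.lt_of_mul_lt_mul_left h5
      have h8 : n * (M' + 2) = q + 2 * n := by rw [hq]; ring
      rw [h8] at h7
      omega)
  refine le_trans (Nat.cast_le.2 (Finset.card_le_card ?_)) (h0.trans ?_)
  · intro p hp
    rw [Finset.mem_filter] at hp ⊢
    refine ⟨hp.1, fun h => hp.2 ?_⟩
    have h5 := indep_mon (Equiv.refl (Fin r ⊕ Fin L)) h
    convert h5 using 3 with e s
    rcases s with a | l
    · simp only [Equiv.refl_apply, Sum.elim_inl, comb_eq]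
    · simp only [Equiv.refl_apply, Sum.elim_inr, comb_eq]
  · rw [Fintype.card_fin]
    exact final_bound hδ (by positivity) h8 ha1

open Classical in
/-- **Random polynomials at several transcendental numbers.** -/
theorem manyR (m n r L D N : ℕ) (hn : 0 < n) : ∃ (k₀ C : ℕ) (δ : ℝ), 0 < δ ∧ ∀ k ≥ k₀,
    ∀ (t : Fin m → Fin n → ℂ) (v : Fin m → Fin r → Fin n → ℂ) (u : Fin m → Fin L → Fin n → ℂ),
    (∀ j, Function.Injective (t j)) → (∀ j i, Transcendental ℚ (t j i)) →
    (∀ j, LinearIndependent ℂ (v j)) → (∀ j, LinearIndependent ℚ (u j)) →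
    ∀ A : Finset ℚ, A.Nonempty →
    ∀ W : Submodule QB ℂ, Module.Finite QB W → finrank QB W ≤ N →
    ∀ (ζ : Fin m → Fin r → ℂ) (ξ : Fin m → Fin L → ℂ),
    (((Fintype.piFinset fun _ : Fin m => Fintype.piFinset fun _ : Fin k => A).filter
      (fun P => RelI W D (fun p : Fin m × (Fin r ⊕ Fin L) =>
        Sum.elim (fun a => ζ p.1 a + comb (t p.1) (v p.1 a) (P p.1))
        (fun l => Complex.exp (ξ p.1 l + comb (t p.1) (u p.1 l) (P p.1))) p.2))).card : ℝ) ≤
      C * (A.card : ℝ) ^ ((m * k : ℝ) - δ * k) := by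
  obtain ⟨k₀, C, δ, hδ, h⟩ := oneR n r L D (N * ((D + 1) ^ (r + L)) ^ m) hn
  refine ⟨k₀, m * C, δ, hδ, fun k hk t v u ht htr hv hu A hA W hW hWN ζ ξ => ?_⟩
  refine le_trans (Nat.cast_le.2 (Finset.card_le_card ?_))
    (several (E := Fin r ⊕ Fin L → Fin (D + 1)) (N₀ := N * ((D + 1) ^ (r + L)) ^ m)
      (by rw [Fintype.card_fun, Fintype.card_sum, Fintype.card_fin, Fintype.card_fin,
        Fintype.card_fin])
      hA W hW hWN
      (fun j p e => ∏ s, (Sum.elim (fun a => ζ j a + comb (t j) (v j a) p)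
        (fun l => Complex.exp (ξ j l + comb (t j) (u j l) p)) s) ^ (e s : ℕ))
      (fun j W' hW' hWN' => h k hk (t j) (v j) (u j) (ht j) (htr j) (hv j) (hu j) A hA W' hW' hWN'
        (ζ j) (ξ j)))
  intro P hP
  rw [Finset.mem_filter] at hP ⊢
  exact ⟨hP.1, fun hI => not_relI (y := fun j (s : Fin r ⊕ Fin L) =>
    Sum.elim (fun a => ζ j a + comb (t j) (v j a) (P j))
        (fun l => Complex.exp (ξ j l + comb (t j) (u j l) (P j))) s) hI hP.2⟩

end Pool.Agent.X231.EP
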