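import Mathlib
import Pool.Agent.Y918.GB.Rel

set_option autoImplicit false

/-!
# Relations between sums and products
-/

namespace Pool.Agent.X231.EP

open Module Finset MvPolynomial
open Pool.Agent.H301R2.SSE (QB mem_QB)
open Pool.Agent.Y918.GB (RelI)

/-- Replaces the first two numbers by their sum and their product. -/
def sp {R : Type} [CommRing R] {m s : ℕ} (x : Fin m × Fin (s + 2) → R) (q : Fin m × Fin (s + 2)) :
    R :=
  if q.2 = 0 then x (q.1, 0) + x (q.1, 1) else if q.2 = 1 then x (q.1, 0) * x (q.1, 1) else x q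

theorem map_sp {R S : Type} [CommRing R] [CommRing S] (f : R →+* S) {m s : ℕ}
    (x : Fin m × Fin (s + 2) → R) (q : Fin m × Fin (s + 2)) :
    f (sp x q) = sp (fun q => f (x q)) q := by
  unfold sp
  split_ifs <;> simp

theorem degreeOf_sp {m s : ℕ} (q₀ q : Fin m × Fin (s + 2)) :
    (sp (X : Fin m × Fin (s + 2) → MvPolynomial (Fin m × Fin (s + 2)) ℂ) q).degreeOf q₀ ≤
      if q = q₀ ∨ ((q₀.2 = 0 ∨ q₀.2 = 1) ∧ (q = (q₀.1, 0) ∨ q = (q₀.1, 1))) then 1 else 0 := by
  classical
  obtain ⟨j, i⟩ := q
  obtain ⟨j₀, i₀⟩ := q₀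
  have hX : ∀ q' : Fin m × Fin (s + 2), q' ≠ (j₀, i₀) →
      (X q' : MvPolynomial (Fin m × Fin (s + 2)) ℂ).degreeOf (j₀, i₀) = 0 := fun q' hq' =>
    degreeOf_X_of_ne hq'.symm
  have hX1 : ∀ q' : Fin m × Fin (s + 2),
      (X q' : MvPolynomial (Fin m × Fin (s + 2)) ℂ).degreeOf (j₀, i₀) ≤ 1 := fun q' => by
    by_cases hq' : q' = (j₀, i₀)
    · rw [hq', degreeOf_X_self]
    · rw [hX q' hq']
      exact Nat.zero_le _
  have h01 : ((0 : Fin (s + 2)) = 1) ↔ False := by
    constructor
    · intro h
      have := congrArg Fin.val h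
      simp at this
    · exact False.elim
  by_cases hcase : (j = j₀ ∧ (i₀ = 0 ∨ i₀ = 1)) ∨ (j, i) = (j₀, i₀)
  · by_cases hi : i = 0 ∨ i = 1
    · by_cases hcond : (j, i) = (j₀, i₀) ∨
          ((i₀ = 0 ∨ i₀ = 1) ∧ ((j, i) = (j₀, 0) ∨ (j, i) = (j₀, 1)))
      · rw [if_pos hcond]
        unfold sp
        simp only
        by_cases h0 : i = 0
        · subst h0
          rw [if_pos rfl]
          exact (degreeOf_add_le _ _ _).trans (max_le (hX1 _) (hX1 _))
        · rw [if_neg h0, if_pos (hi.resolve_left h0)]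
          refine (degreeOf_mul_le _ _ _).trans ?_
          by_cases hi0 : i₀ = 0
          · subst hi0
            rw [hX (j, 1) (fun h => h01.1 (Prod.ext_iff.1 h).2.symm)]
            exact hX1 _
          · rw [hX (j, 0) (fun h => hi0 (Prod.ext_iff.1 h).2.symm), zero_add]
            exact hX1 _
      · exfalso
        apply hcond
        rcases hcase with ⟨hj, hi0⟩ | h
        · subst hj
          right
          refine ⟨hi0, ?_⟩
          rcases hi with h | h
          · left; rw [h]
          · right; rw [h]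
        · exact Or.inl h
    · push Not at hi
      unfold sp
      simp only
      rw [if_neg hi.1, if_neg hi.2]
      by_cases hq : (j, i) = (j₀, i₀)
      · rw [if_pos (Or.inl hq)]
        exact hX1 _
      · rw [hX _ hq]
        exact Nat.zero_le _
  · push Not at hcase
    obtain ⟨hc1, hc2⟩ := hcase
    have hne0 : (i = 0 ∨ i = 1) → (j, (0 : Fin (s + 2))) ≠ (j₀, i₀) ∧
        (j, (1 : Fin (s + 2))) ≠ (j₀, i₀) := by
      intro _
      constructor
      · intro h
        have h1 := Prod.ext_iff.1 h
        exact (hc1 h1.1).1 h1.2.symm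
      · intro h
        have h1 := Prod.ext_iff.1 h
        exact (hc1 h1.1).2 h1.2.symm
    refine le_trans (le_of_eq ?_) (Nat.zero_le _)
    unfold sp
    simp only
    by_cases h0 : i = 0
    · rw [if_pos h0]
      have h2 := hne0 (Or.inl h0)
      have h3 := degreeOf_add_le (j₀, i₀) (X (j, 0) : MvPolynomial (Fin m × Fin (s + 2)) ℂ) (X (j, 1))
      rw [hX _ h2.1, hX _ h2.2] at h3
      simpa using h3
    · rw [if_neg h0]
      by_cases h1 : i = 1
      · rw [if_pos h1]
        have h2 := hne0 (Or.inr h1)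
        have h3 := degreeOf_mul_le (j₀, i₀) (X (j, 0) : MvPolynomial (Fin m × Fin (s + 2)) ℂ)
          (X (j, 1))
        rw [hX _ h2.1, hX _ h2.2] at h3
        simpa using h3
      · rw [if_neg h1]
        exact hX _ hc2

/-- A relation between the sums and products gives one between the numbers themselves. -/
theorem rel_sp {W : Submodule QB ℂ} {D m s : ℕ} {x : Fin m × Fin (s + 2) → ℂ}
    (h : RelI W D (sp x)) : RelI W (2 * D) x := by
  classical
  obtain ⟨p, h0, h1, h2, h3⟩ := h
  let g : Fin m × Fin (s + 2) → MvPolynomial (Fin m × Fin (s + 2)) ℂ := sp X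
  have hev : ∀ y : Fin m × Fin (s + 2) → ℂ, eval y (aeval g p) = eval (sp y) p := by
    intro y
    rw [aeval_def, eval₂_comp_left (eval y)]
    have e1 : (eval y).comp (algebraMap ℂ (MvPolynomial (Fin m × Fin (s + 2)) ℂ)) = RingHom.id ℂ := by
      ext z
      simp
    have e2 : (eval y) ∘ g = sp y := by
      funext q
      change eval y (sp X q) = sp y q
      rw [map_sp]
      congr 1
      funext q'
      simp
    rw [e1, e2]
    rfl
  refine ⟨aeval g p, ?_, ?_, ?_, ?_⟩
  · intro hz
    apply h0
    apply MvPolynomial.funext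
    intro z
    rw [map_zero]
    -- a point with the given sums and products
    have hroot : ∀ a b : ℂ, ∃ u v : ℂ, u + v = a ∧ u * v = b := by
      intro a b
      obtain ⟨w, hw⟩ := IsAlgClosed.exists_pow_nat_eq (a ^ 2 - 4 * b) (n := 2) (by norm_num)
      refine ⟨(a + w) / 2, (a - w) / 2, by ring, ?_⟩
      have : (a + w) / 2 * ((a - w) / 2) = (a ^ 2 - w ^ 2) / 4 := by ring
      rw [this, hw]
      ring
    choose f1 f2 hf1 hf2 using hroot
    let y : Fin m × Fin (s + 2) → ℂ := fun q =>
      if q.2 = 0 then f1 (z (q.1, 0)) (z (q.1, 1)) else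
      if q.2 = 1 then f2 (z (q.1, 0)) (z (q.1, 1)) else z q
    have hy : sp y = z := by
      funext q
      obtain ⟨j, i⟩ := q
      have h10 : ((1 : Fin (s + 2)) = 0) ↔ False := by
        constructor
        · intro h
          have := congrArg Fin.val h
          simp at this
        · exact False.elim
      unfold sp
      simp only [y]
      by_cases hi : i = 0
      · subst hi
        simp only [if_true, h10, if_false]
        exact hf1 _ _
      · rw [if_neg hi]
        by_cases hi1 : i = 1
        · subst hi1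
          simp only [if_true, h10, if_false]
          exact hf2 _ _
        · rw [if_neg hi1, if_neg hi, if_neg hi1]
    rw [← hy, ← hev, hz, map_zero]
  · intro M
    rw [aeval_def, eval₂_eq', coeff_sum]
    refine Submodule.sum_mem _ fun d _ => ?_
    rw [algebraMap_eq, coeff_C_mul]
    have e1 : ∏ i, g i ^ d i = map (Int.castRingHom ℂ)
        (∏ i, (sp (X : Fin m × Fin (s + 2) → MvPolynomial (Fin m × Fin (s + 2)) ℤ) i) ^ d i) := by
      rw [map_prod]
      refine Finset.prod_congr rfl fun i _ => ?_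
      rw [map_pow]
      congr 1
      have := map_sp (MvPolynomial.map (Int.castRingHom ℂ))
        (X : Fin m × Fin (s + 2) → MvPolynomial (Fin m × Fin (s + 2)) ℤ) i
      rw [this]
      change sp X i = sp _ i
      congr 1
      funext q
      rw [map_X]
    rw [e1, coeff_map]
    obtain ⟨c, hc⟩ : ∃ c : ℤ, c = coeff M (∏ i,
        (sp (X : Fin m × Fin (s + 2) → MvPolynomial (Fin m × Fin (s + 2)) ℤ) i) ^ d i) := ⟨_, rfl⟩
    rw [← hc]
    have e2 : coeff d p * (Int.castRingHom ℂ) c = ((c : QB)) • coeff d p := by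
      rw [Algebra.smul_def, mul_comm]
      congr 1
    rw [e2]
    exact Submodule.smul_mem _ _ (h1 d)
  · intro q₀
    rw [aeval_def, eval₂_eq']
    refine (degreeOf_sum_le q₀ _ _).trans (Finset.sup_le fun d hd => ?_)
    rw [algebraMap_eq]
    refine (degreeOf_C_mul_le _ _ _).trans ?_
    refine (degreeOf_prod_le q₀ _ _).trans ?_
    have hb : ∀ q, d q ≤ D := fun q => (degreeOf_le_iff.1 (h2 q)) d hd
    have h4 : ∀ q ∈ (Finset.univ : Finset (Fin m × Fin (s + 2))), degreeOf q₀ (g q ^ d q) ≤
        if q = q₀ ∨ ((q₀.2 = 0 ∨ q₀.2 = 1) ∧ (q = (q₀.1, 0) ∨ q = (q₀.1, 1))) then d q else 0 := by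
      intro q _
      refine (degreeOf_pow_le _ _ _).trans ?_
      have h5 := degreeOf_sp q₀ q
      change d q * degreeOf q₀ (sp X q) ≤ _
      refine (Nat.mul_le_mul_left _ h5).trans (le_of_eq ?_)
      split_ifs <;> simp
    refine (Finset.sum_le_sum h4).trans ?_
    rw [← Finset.sum_filter]
    by_cases hq : q₀.2 = 0 ∨ q₀.2 = 1
    · have h6 : Finset.univ.filter (fun q : Fin m × Fin (s + 2) =>
          q = q₀ ∨ ((q₀.2 = 0 ∨ q₀.2 = 1) ∧ (q = (q₀.1, 0) ∨ q = (q₀.1, 1)))) ⊆
          {(q₀.1, 0), (q₀.1, 1)} := by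
        intro q hq'
        rw [Finset.mem_filter] at hq'
        rw [Finset.mem_insert, Finset.mem_singleton]
        rcases hq'.2 with h | ⟨_, h | h⟩
        · rw [h]
          rcases hq with h' | h'
          · exact Or.inl (Prod.ext rfl h')
          · exact Or.inr (Prod.ext rfl h')
        · exact Or.inl h
        · exact Or.inr h
      refine (Finset.sum_le_sum_of_subset h6).trans ?_
      refine (Finset.sum_le_card_nsmul _ _ D (fun q _ => hb q)).trans ?_
      rw [smul_eq_mul]
      exact Nat.mul_le_mul_right _ (Finset.card_le_two)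
    · have h6 : Finset.univ.filter (fun q : Fin m × Fin (s + 2) =>
          q = q₀ ∨ ((q₀.2 = 0 ∨ q₀.2 = 1) ∧ (q = (q₀.1, 0) ∨ q = (q₀.1, 1)))) ⊆ {q₀} := by
        intro q hq'
        rw [Finset.mem_filter] at hq'
        rw [Finset.mem_singleton]
        rcases hq'.2 with h | ⟨h, _⟩
        · exact h
        · exact absurd h hq
      refine (Finset.sum_le_sum_of_subset h6).trans ?_
      rw [Finset.sum_singleton]
      have := hb q₀
      omega
  · rw [hev]
    exact h3

end Pool.Agent.X231.EP
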